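import Pool.Agent.Helper947_Four.Final
import Pool.Agent.Helper947_Four.DataA
import Pool.Agent.Helper947_Four.DataB

set_option autoImplicit false

/-!
Algebras with four simple modules such that `dim End (P t) ≤ 2` for one indecomposable projective
module `P t` and `dim End (P i) ≤ 1` for the three others: if all lattice points are rigid, the
algebra is `τ`-tilting finite.
-/

namespace Pool.Agent.Results.MP_ccf6ab_al.FourSimples

open Pool.Agent.Helper391_TT Pool.Agent.Helper947_Four

universe u

theorem result {k A : Type u} [Field k] [Ring A] [Algebra k A] [Module.Finite k A] {ι : Type}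
    [Fintype ι] (B : ProjBasis k A ι) (hι : Fintype.card ι = 4) (t : ι)
    (ht : dd (B.P t) (B.P t) ≤ 2) (h1 : ∀ i, i ≠ t → dd (B.P i) (B.P i) ≤ 1)
    (h : ∀ x : ι → ℤ, (fun i => (x i : ℝ)) ∈ B.gFan) : TauTiltingFinite k A := by
  classical
  have rig : ∀ x : ι → ℤ, ∃ F : Obj k A, Rigid F ∧ B.Cls F x := fun x => rigid_of_mem B x (h x)
  choose F hF using rig
  exact finite_of_four B F hF ⟨_, _, okA⟩ ⟨_, _, okB⟩ ⟨_, _, okC⟩ hι t ht h1

end Pool.Agent.Results.MP_ccf6ab_al.FourSimples
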