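import Pool.Agent.Helper947_Any.Final
import Pool.Agent.Helper947_Any.DataA
import Pool.Agent.Helper947_Any.DataB
import Pool.Agent.Helper947_Any.DataC
import Pool.Agent.Helper947_Any.DataD

set_option autoImplicit false

/-!
Algebras (with any number of simple modules) for which, in every cut of the set of indecomposable
projective modules, the connected components of the graph of non-zero Hom-spaces are small: if all
lattice points are rigid, the algebra is `τ`-tilting finite. The weight of a pair is the minimum of
`dim Hom (P j, P i)` and `dim End (P j) + dim End (P i) - 1`.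
-/

namespace Pool.Agent.Results.MP_ccf6ab_al.SparseHoms

open Pool.Agent.Helper391_TT Pool.Agent.Helper947_Fin Pool.Agent.Helper947_Any

universe u

theorem result {k A : Type u} [Field k] [Ring A] [Algebra k A] [Module.Finite k A] {ι : Type}
    [Fintype ι] [DecidableEq ι] (B : ProjBasis k A ι)
    (hs : ∀ (I : Finset ι) (i : ι), SmallCut B I (cutComp B I i))
    (h : ∀ x : ι → ℤ, (fun i => (x i : ℝ)) ∈ B.gFan) : TauTiltingFinite k A := by
  have rig : ∀ x : ι → ℤ, ∃ F : Obj k A, Rigid F ∧ B.Cls F x := fun x => rigid_of_mem B x (h x)
  choose F hF using rig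
  exact finite_of_smallCut B F hF ⟨db135, cov135⟩ ⟨db225, cov225⟩ ⟨db144, cov144⟩ ⟨db234, cov234⟩
    ⟨db235, cov235⟩ hs

end Pool.Agent.Results.MP_ccf6ab_al.SparseHoms
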