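import Pool.Agent.Helper947_Three.Final
import Pool.Agent.Helper947_Three.DataA
import Pool.Agent.Helper947_Three.DataB
import Pool.Agent.Helper947_Three.DataC
import Pool.Agent.Helper947_Three.DataD

set_option autoImplicit false

/-!
Algebras with at most three simple modules and small endomorphism algebras of the indecomposable
projective modules: if all lattice points are rigid, the algebra is `τ`-tilting finite.
-/

namespace Pool.Agent.Results.MP_ccf6ab_al.ThreeSimples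

open Pool.Agent.Helper391_TT Pool.Agent.Helper947_Three

universe u

theorem result {k A : Type u} [Field k] [Ring A] [Algebra k A] [Module.Finite k A] {ι : Type}
    [Fintype ι] (B : ProjBasis k A ι) (i j l : ι) (hall : ∀ a, a = i ∨ a = j ∨ a = l)
    (hd : (dd (B.P i) (B.P i) ≤ 7 ∧ dd (B.P j) (B.P j) ≤ 1 ∧ dd (B.P l) (B.P l) ≤ 1) ∨
      (dd (B.P i) (B.P i) ≤ 4 ∧ dd (B.P j) (B.P j) ≤ 2 ∧ dd (B.P l) (B.P l) ≤ 1) ∨
      (dd (B.P i) (B.P i) ≤ 3 ∧ dd (B.P j) (B.P j) ≤ 2 ∧ dd (B.P l) (B.P l) ≤ 2))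
    (h : ∀ x : ι → ℤ, (fun i => (x i : ℝ)) ∈ B.gFan) : TauTiltingFinite k A := by
  classical
  have rig : ∀ x : ι → ℤ, ∃ F : Obj k A, Rigid F ∧ B.Cls F x := fun x => rigid_of_mem B x (h x)
  choose F hF using rig
  exact finite_of_three B F hF ⟨⟨_, _, ok711⟩, ⟨_, _, ok171⟩, ⟨_, _, ok421⟩, ⟨_, _, ok241⟩,
    ⟨_, _, ok142⟩, ⟨_, _, ok322⟩, ⟨_, _, ok232⟩⟩ i j l hall hd

end Pool.Agent.Results.MP_ccf6ab_al.ThreeSimples
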